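import Pool.Agent.H70.LZ.Stm

/-!
# LZ part EXQ: `(1 + u)^(p^N) = 1`
-/

set_option autoImplicit false

open Finset

namespace H39.LZ

open H70.LZ

theorem fil_anti {R S : Type} [CommRing R] [Ring S] [Algebra R S] {c : ℕ} (A : Fil R S c) :
    Antitone A.F := antitone_nat_of_succ_le A.anti

theorem fil_zero {R S : Type} [CommRing R] [Ring S] [Algebra R S] {c : ℕ} (A : Fil R S c) {i : ℕ}
    (hi : c < i) {x : S} (hx : x ∈ A.F i) : x = 0 := by
  have h := fil_anti A (Nat.succ_le_of_lt hi) hx
  rw [Nat.succ_eq_add_one, A.bot] at h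
  simpa using h

theorem fil_pow {R S : Type} [CommRing R] [Ring S] [Algebra R S] {c : ℕ} (A : Fil R S c) {u : S}
    (hu : u ∈ A.F 1) (i : ℕ) : u ^ i ∈ A.F i := by
  induction i with
  | zero => simpa using A.one
  | succ i ih => rw [pow_succ]; exact A.mul _ _ _ _ ih hu

theorem t_EXQ : S_EXQ := by
  intro p N c hp hc S _ _ A u hu
  rw [(Commute.one_left u).add_pow, Finset.sum_eq_single_of_mem (p ^ N) (by simp)]
  · simp
  · intro i hi hne
    rw [Finset.mem_range] at hi
    rw [one_pow, one_mul]
    set j := p ^ N - i with hj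
    have hj1 : 1 ≤ j := by omega
    by_cases hjc : c < j
    · rw [fil_zero A hjc (fil_pow A hu j), zero_mul]
    · have hdvd : p ^ N ∣ (p ^ N).choose i := by
        have hij : i = p ^ N - j := by omega
        have hjle : j ≤ p ^ N := by omega
        rw [hij, Nat.choose_symm hjle]
        have h1 : p ^ N * (p ^ N - 1).choose (j - 1) = (p ^ N).choose j * j := by
          have := Nat.add_one_mul_choose_eq (p ^ N - 1) (j - 1)
          rw [show p ^ N - 1 + 1 = p ^ N by omega, show j - 1 + 1 = j by omega] at this
          exact this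
        have hcop : Nat.Coprime (p ^ N) j := by
          apply Nat.Coprime.pow_left
          rw [hp.coprime_iff_not_dvd]
          intro hd
          have := Nat.le_of_dvd (by omega) hd
          omega
        exact hcop.dvd_of_dvd_mul_right ⟨_, h1.symm⟩
      have h0 : (((p ^ N).choose i : ℕ) : S) = 0 := by
        rw [← map_natCast (algebraMap (ZMod (p ^ N)) S), (ZMod.natCast_eq_zero_iff _ _).2 hdvd,
          map_zero]
      rw [h0, mul_zero]

end H39.LZ
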