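import Pool.Agent.H70.LZ.Stm

/-!
# LZ part FRE: the free algebra truncated above degree `c`, as endomorphisms of words
-/

set_option autoImplicit false

open Finset

namespace H39.LZ

open H70.LZ

/-- words of length at most `c` -/
abbrev Wd (X : Type) (c : ℕ) := {w : List X // w.length ≤ c}

instance {X : Type} [Finite X] {c : ℕ} : Finite (Wd X c) := List.finite_length_le X c

/-- functions on words vanishing on the words of length `< j` -/
def Vj (q : ℕ) (X : Type) (c j : ℕ) : Submodule (ZMod q) (Wd X c → ZMod q) where
  carrier := {v | ∀ w : Wd X c, w.1.length < j → v w = 0}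
  add_mem' := by
    intro a b ha hb w hw
    rw [Pi.add_apply, ha w hw, hb w hw, add_zero]
  zero_mem' := fun w _ => rfl
  smul_mem' := by
    intro r a ha w hw
    rw [Pi.smul_apply, ha w hw, smul_zero]

theorem mem_Vj {q : ℕ} {X : Type} {c j : ℕ} {v : Wd X c → ZMod q} :
    v ∈ Vj q X c j ↔ ∀ w : Wd X c, w.1.length < j → v w = 0 := Iff.rfl

/-- the filtration -/
def Fj (q : ℕ) (X : Type) (c i : ℕ) : Submodule (ZMod q) (Module.End (ZMod q) (Wd X c → ZMod q)) where
  carrier := {T | ∀ j, ∀ v ∈ Vj q X c j, T v ∈ Vj q X c (i + j)}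
  add_mem' := by
    intro a b ha hb j v hv
    exact add_mem (ha j v hv) (hb j v hv)
  zero_mem' := fun j v _ => (Vj q X c (_ + j)).zero_mem
  smul_mem' := by
    intro r a ha j v hv
    exact Submodule.smul_mem _ r (ha j v hv)

theorem mem_Fj {q : ℕ} {X : Type} {c i : ℕ} {T : Module.End (ZMod q) (Wd X c → ZMod q)} :
    T ∈ Fj q X c i ↔ ∀ j, ∀ v ∈ Vj q X c j, T v ∈ Vj q X c (i + j) := Iff.rfl

theorem Vj_anti {q : ℕ} {X : Type} {c j j' : ℕ} (h : j ≤ j') : Vj q X c j' ≤ Vj q X c j :=
  fun _ hv w hw => hv w (lt_of_lt_of_le hw h)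

/-- the filtered algebra -/
def filW (q : ℕ) (X : Type) (c : ℕ) (hinv : ∀ n : ℕ, 1 ≤ n → n ≤ c → IsUnit (n : ZMod q)) :
    Fil (ZMod q) (Module.End (ZMod q) (Wd X c → ZMod q)) c where
  F := Fj q X c
  anti := fun i T hT j v hv => Vj_anti (by omega) (hT j v hv)
  one := fun j v hv => by simpa using hv
  mul := by
    intro i j x y hx hy k v hv
    rw [Module.End.mul_apply, add_assoc]
    exact hx _ _ (hy _ _ hv)
  bot := by
    rw [eq_bot_iff]
    intro T hT
    rw [Submodule.mem_bot]
    apply LinearMap.ext
    intro v
    have h := hT 0 v (fun w hw => absurd hw (by omega))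
    funext w
    exact h w (by have := w.2; omega)
  inv := hinv

open Classical in
/-- left multiplication by a letter -/
noncomputable def lx (q : ℕ) {X : Type} (c : ℕ) (a : X) :
    Module.End (ZMod q) (Wd X c → ZMod q) where
  toFun v w := match w with
    | ⟨[], _⟩ => 0
    | ⟨b :: t, h⟩ => if b = a then v ⟨t, le_trans (by simp) h⟩ else 0
  map_add' := by
    intro v v'
    funext w
    obtain ⟨w, hw⟩ := w
    cases w with
    | nil => simp
    | cons b t =>
      by_cases h : b = a <;> simp [h]
  map_smul' := by
    intro r v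
    funext w
    obtain ⟨w, hw⟩ := w
    cases w with
    | nil => simp
    | cons b t =>
      by_cases h : b = a <;> simp [h]

open Classical in
theorem lx_nil {q : ℕ} {X : Type} {c : ℕ} (a : X) (v : Wd X c → ZMod q) (h : ([] : List X).length ≤ c) :
    lx q c a v ⟨[], h⟩ = 0 := rfl

open Classical in
theorem lx_cons {q : ℕ} {X : Type} {c : ℕ} (a b : X) (t : List X) (v : Wd X c → ZMod q)
    (h : (b :: t).length ≤ c) :
    lx q c a v ⟨b :: t, h⟩ = if b = a then v ⟨t, le_trans (by simp) h⟩ else 0 := rfl

open Classical in
/-- basis vector -/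
noncomputable def ew (q : ℕ) {X : Type} (c : ℕ) (w : List X) : Wd X c → ZMod q :=
  fun u => if u.1 = w then 1 else 0

theorem lx_ew {q : ℕ} {X : Type} {c : ℕ} (a : X) (w : List X) :
    lx q c a (ew q c w) = ew q c (a :: w) := by
  classical
  funext u
  obtain ⟨u, hu⟩ := u
  cases u with
  | nil => rw [lx_nil]; simp [ew]
  | cons b t =>
    rw [lx_cons]
    by_cases h : b = a
    · simp [ew, h]
    · simp [ew, h]

theorem prod_ew {q : ℕ} {X : Type} {c : ℕ} (w : List X) :
    (w.map (lx q c)).prod (ew q c []) = ew q c w := by
  induction w with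
  | nil => simp
  | cons a w ih => rw [List.map_cons, List.prod_cons, Module.End.mul_apply, ih, lx_ew]

theorem t_FRE : S_FRE := by
  classical
  intro q c _ X _ hinv
  have : Finite (ZMod q) := Finite.of_fintype _
  have : Finite (Module.End (ZMod q) (Wd X c → ZMod q)) :=
    Finite.of_injective (fun f : Module.End (ZMod q) (Wd X c → ZMod q) =>
      (f : (Wd X c → ZMod q) → (Wd X c → ZMod q))) DFunLike.coe_injective
  refine ⟨Module.End (ZMod q) (Wd X c → ZMod q), inferInstance, inferInstance, inferInstance,
    filW q X c hinv, lx q c, ?_, ?_⟩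
  · intro a j v hv w hw
    obtain ⟨w, h⟩ := w
    cases w with
    | nil => exact lx_nil a v h
    | cons b t =>
      rw [lx_cons]
      split_ifs with hb
      · apply hv
        simp only [List.length_cons] at hw ⊢
        omega
      · rfl
  · intro n hn M _ _ φ
    have : Fintype (Wd X c) := Fintype.ofFinite _
    let D : Module.End (ZMod q) (Wd X c → ZMod q) →ₗ[ZMod q] M :=
      { toFun := fun T => ∑ w : Wd X c, if w.1.length = n then (T (ew q c [])) w • φ w.1 else 0
        map_add' := by
          intro T T'
          rw [← Finset.sum_add_distrib]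
          apply Finset.sum_congr rfl
          intro w _
          split_ifs
          · rw [LinearMap.add_apply, Pi.add_apply, add_smul]
          · rw [add_zero]
        map_smul' := by
          intro r T
          rw [Finset.smul_sum]
          apply Finset.sum_congr rfl
          intro w _
          split_ifs
          · rw [LinearMap.smul_apply, Pi.smul_apply, smul_eq_mul, mul_smul, RingHom.id_apply]
          · rw [smul_zero] }
    refine ⟨D, ?_, ?_⟩
    · intro w hw
      change (∑ u : Wd X c, if u.1.length = n then
        ((w.map (lx q c)).prod (ew q c [])) u • φ u.1 else 0) = φ w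
      rw [prod_ew, Finset.sum_eq_single (⟨w, by omega⟩ : Wd X c)]
      · rw [if_pos hw]
        simp [ew]
      · intro u _ hne
        have : u.1 ≠ w := fun h => hne (Subtype.ext h)
        split_ifs
        · simp [ew, this]
        · rfl
      · intro h
        exact absurd (Finset.mem_univ _) h
    · intro s hs
      change (∑ u : Wd X c, if u.1.length = n then (s (ew q c [])) u • φ u.1 else 0) = 0
      apply Finset.sum_eq_zero
      intro u _
      split_ifs with hu
      · have h := hs 0 (ew q c []) (fun w hw => absurd hw (by omega))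
        rw [h u (by omega), zero_smul]
      · rfl

end H39.LZ
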